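import Mathlib

/-!
# The modular topology and the dimension of the space (MP_106cb8_an)

For a real vector space `X`: the modular topology of every convex (left-continuous) modular on `X` is
regular if and only if `X` is finite-dimensional. If `X` is finite-dimensional, the modular topology is
always the Euclidean topology of `X_ρ`. If `X` is infinite-dimensional, there is a convex
left-continuous modular with `X_ρ = X` whose modular topology is Hausdorff and not regular.
-/

set_option autoImplicit false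

open Set Topology Filter
open scoped ENNReal

namespace Pool.Agent.Results.MP_106cb8_an.DimensionCriterion

universe u

section defs

variable {X : Type u} [AddCommGroup X] [Module ℝ X]

/-- `ρ` is a convex modular on `X`. -/
structure IsConvexModular (ρ : X → ℝ≥0∞) : Prop where
  eq_zero_iff : ∀ u, ρ u = 0 ↔ u = 0
  smul_eq : ∀ (α : ℝ) (u : X), |α| = 1 → ρ (α • u) = ρ u
  convex : ∀ (α : ℝ) (u v : X), 0 ≤ α → α ≤ 1 →
    ρ (α • u + (1 - α) • v) ≤ ENNReal.ofReal α * ρ u + ENNReal.ofReal (1 - α) * ρ v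

/-- `ρ` is left-continuous. -/
def IsLeftContinuous (ρ : X → ℝ≥0∞) : Prop :=
  ∀ (u : X) (c : ℝ), 0 < c → Tendsto (fun t : ℝ => ρ (t • u)) (𝓝[<] c) (𝓝 (ρ (c • u)))

/-- The modular space `X_ρ`. -/
def modularSpace (ρ : X → ℝ≥0∞) : Set X := {v | ∃ c : ℝ, 0 < c ∧ ρ (c • v) < ∞}

/-- The sequence `x` of points of `X_ρ` converges modularly to `y`. -/
def ModConv (ρ : X → ℝ≥0∞) (x : ℕ → modularSpace ρ) (y : modularSpace ρ) : Prop :=
  Tendsto (fun j => ρ ((x j : X) - (y : X))) atTop (𝓝 0)

lemma ModConv.sub {ρ : X → ℝ≥0∞} {x : ℕ → modularSpace ρ} {y : modularSpace ρ}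
    (h : ModConv ρ x y) {φ : ℕ → ℕ} (hφ : StrictMono φ) : ModConv ρ (fun j => x (φ j)) y :=
  Tendsto.comp (g := fun j => ρ ((x j : X) - (y : X))) h hφ.tendsto_atTop

/-- If no member of a modularly convergent sequence ever stays outside `U`. -/
lemma eventually_of {ρ : X → ℝ≥0∞} {U : Set (modularSpace ρ)}
    (hU : ∀ (x : ℕ → modularSpace ρ) (y : modularSpace ρ), (∀ j, x j ∉ U) → ModConv ρ x y → y ∉ U)
    {x : ℕ → modularSpace ρ} {y : modularSpace ρ} (hy : y ∈ U) (h : ModConv ρ x y) :
    ∀ᶠ j in atTop, x j ∈ U := by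
  by_contra hc
  rw [not_eventually] at hc
  obtain ⟨φ, hφ, hφ'⟩ := extraction_of_frequently_atTop hc
  exact hU _ y hφ' (h.sub hφ) hy

/-- The modular topology: a set `C ⊆ X_ρ` is closed iff the modular limits in `X_ρ` of all sequences
in `C` belong to `C`. -/
@[reducible] def modTop (ρ : X → ℝ≥0∞) : TopologicalSpace (modularSpace ρ) where
  IsOpen U := ∀ (x : ℕ → modularSpace ρ) (y : modularSpace ρ), (∀ j, x j ∉ U) → ModConv ρ x y → y ∉ U
  isOpen_univ := fun x _ h => absurd (mem_univ (x 0)) (h 0)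
  isOpen_inter := by
    intro U V hU hV x y hx hxy hy
    obtain ⟨j, hj⟩ := ((eventually_of hU hy.1 hxy).and (eventually_of hV hy.2 hxy)).exists
    exact hx j hj
  isOpen_sUnion := by
    intro s hs x y hx hxy hy
    obtain ⟨U, hU, hyU⟩ := hy
    exact hs U hU x y (fun j hj => hx j ⟨U, hU, hj⟩) hxy hyU

/-! ### general facts -/

lemma IsConvexModular.smul_le {ρ : X → ℝ≥0∞} (h : IsConvexModular ρ) {s : ℝ} (h0 : 0 ≤ s)
    (h1 : s ≤ 1) (u : X) : ρ (s • u) ≤ ENNReal.ofReal s * ρ u := by
  have h2 := h.convex s u 0 h0 h1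
  rw [smul_zero, add_zero, (h.eq_zero_iff 0).2 rfl, mul_zero, add_zero] at h2
  exact h2

lemma IsConvexModular.neg {ρ : X → ℝ≥0∞} (h : IsConvexModular ρ) (u : X) : ρ (-u) = ρ u := by
  have h1 := h.smul_eq (-1) u (by simp)
  rwa [neg_one_smul] at h1

lemma IsConvexModular.abs_smul {ρ : X → ℝ≥0∞} (h : IsConvexModular ρ) (a : ℝ) (u : X) :
    ρ (a • u) = ρ (|a| • u) := by
  rcases abs_choice a with h1 | h1
  · rw [h1]
  · rw [h1, neg_smul, h.neg]

lemma IsConvexModular.smul_le' {ρ : X → ℝ≥0∞} (h : IsConvexModular ρ) {s : ℝ}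
    (h1 : |s| ≤ 1) (u : X) : ρ (s • u) ≤ ENNReal.ofReal |s| * ρ u := by
  rw [h.abs_smul]
  exact h.smul_le (abs_nonneg _) h1 u

lemma IsConvexModular.half {ρ : X → ℝ≥0∞} (h : IsConvexModular ρ) (u v : X) :
    ρ ((1 / 2 : ℝ) • (u + v)) ≤ ρ u + ρ v := by
  have h2 := h.convex (1 / 2) u v (by norm_num) (by norm_num)
  have h3 : (1 - 1 / 2 : ℝ) = 1 / 2 := by norm_num
  rw [h3, ← smul_add] at h2
  refine h2.trans (add_le_add ?_ ?_)
  · refine mul_le_of_le_one_left bot_le ?_
    rw [ENNReal.ofReal_le_one]; norm_num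
  · refine mul_le_of_le_one_left bot_le ?_
    rw [ENNReal.ofReal_le_one]; norm_num

/-- the modular space as a subspace -/
def sub {ρ : X → ℝ≥0∞} (h : IsConvexModular ρ) : Submodule ℝ X where
  carrier := modularSpace ρ
  zero_mem' := ⟨1, one_pos, by rw [smul_zero, (h.eq_zero_iff 0).2 rfl]; simp⟩
  add_mem' := by
    rintro u v ⟨c, hc, hu⟩ ⟨d, hd, hv⟩
    set t := min c d with ht
    have ht0 : 0 < t := lt_min hc hd
    have key : ∀ (c : ℝ) (u : X), 0 < c → t ≤ c → ρ (c • u) < ∞ → ρ (t • u) < ∞ := by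
      intro c u hc htc hu
      have e : t • u = (t / c) • (c • u) := by rw [smul_smul]; congr 1; field_simp
      rw [e]
      refine lt_of_le_of_lt (h.smul_le (by positivity) ((div_le_one hc).2 htc) _) ?_
      exact ENNReal.mul_lt_top ENNReal.ofReal_lt_top hu
    refine ⟨t / 2, by positivity, ?_⟩
    have e : (t / 2) • (u + v) = (1 / 2 : ℝ) • (t • u + t • v) := by
      rw [← smul_add, smul_smul]; congr 1; ring
    rw [e]
    exact lt_of_le_of_lt (h.half _ _)
      (ENNReal.add_lt_top.2 ⟨key c u hc (min_le_left _ _) hu, key d v hd (min_le_right _ _) hv⟩)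
  smul_mem' := by
    rintro a u ⟨c, hc, hu⟩
    by_cases ha : a = 0
    · refine ⟨1, one_pos, ?_⟩
      rw [ha, zero_smul, smul_zero, (h.eq_zero_iff 0).2 rfl]
      simp
    · have ha' : 0 < |a| := abs_pos.2 ha
      refine ⟨c / |a|, by positivity, ?_⟩
      rw [smul_smul, h.abs_smul, abs_mul, abs_div, abs_abs, abs_of_pos hc, div_mul_cancel₀ _ ha'.ne']
      exact hu

end defs

/-! ### finite dimension -/

section fin

variable {V : Type u} [AddCommGroup V] [Module ℝ V] {ρ : V → ℝ≥0∞}

/-- all multiples of the sequence tend to zero modularly -/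
def Q (ρ : V → ℝ≥0∞) (u : ℕ → V) : Prop := ∀ l : ℝ, Tendsto (fun j => ρ (l • u j)) atTop (𝓝 0)

lemma Q.add (h : IsConvexModular ρ) {u v : ℕ → V} (hu : Q ρ u) (hv : Q ρ v) :
    Q ρ (fun j => u j + v j) := by
  intro l
  have h1 := (hu (2 * l)).add (hv (2 * l))
  rw [add_zero] at h1
  refine tendsto_of_tendsto_of_tendsto_of_le_of_le tendsto_const_nhds h1 (fun _ => bot_le)
    fun j => ?_
  have e : l • (u j + v j) = (1 / 2 : ℝ) • ((2 * l) • u j + (2 * l) • v j) := by
    rw [← smul_add, smul_smul]; congr 1; ring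
  show ρ (l • (u j + v j)) ≤ _
  rw [e]
  exact h.half _ _

lemma Q.sum (h : IsConvexModular ρ) {ι : Type} (s : Finset ι) {u : ι → ℕ → V}
    (hu : ∀ i ∈ s, Q ρ (u i)) : Q ρ (fun j => ∑ i ∈ s, u i j) := by
  classical
  induction s using Finset.induction_on with
  | empty =>
    intro l
    simp only [Finset.sum_empty, smul_zero, (h.eq_zero_iff 0).2 rfl]
    exact tendsto_const_nhds
  | insert i s hi ih =>
    simp only [Finset.sum_insert hi]
    exact (hu i (Finset.mem_insert_self _ _)).add h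
      (ih fun j hj => hu j (Finset.mem_insert_of_mem hj))

lemma Q.smul (h : IsConvexModular ρ) {b : V} {c : ℝ} (hc : 0 < c) (hb : ρ (c • b) < ∞) {a : ℕ → ℝ}
    (ha : Tendsto a atTop (𝓝 0)) : Q ρ (fun j => a j • b) := by
  intro l
  have h1 : Tendsto (fun j => |l * a j / c|) atTop (𝓝 0) := by
    have := ((ha.const_mul l).div_const c).abs
    simpa using this
  have h2 : Tendsto (fun j => ENNReal.ofReal |l * a j / c| * ρ (c • b)) atTop (𝓝 0) := by
    have h3 := (ENNReal.continuous_ofReal.tendsto 0).comp h1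
    rw [ENNReal.ofReal_zero] at h3
    have h4 := ENNReal.Tendsto.mul_const (b := ρ (c • b)) h3 (Or.inr hb.ne)
    rw [zero_mul] at h4
    exact h4
  refine tendsto_of_tendsto_of_tendsto_of_le_of_le' tendsto_const_nhds h2
    (Eventually.of_forall fun _ => bot_le) ?_
  filter_upwards [h1.eventually_le_const one_pos] with j hj
  have e : l • a j • b = (l * a j / c) • (c • b) := by
    rw [smul_smul, smul_smul]; congr 1; field_simp
  rw [e]
  exact h.smul_le' hj _

/-- coordinatewise convergence implies modular convergence -/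
lemma conv_of_coord (h : IsConvexModular ρ) {n : ℕ} (e : V ≃ₗ[ℝ] (Fin n → ℝ))
    (hall : ∀ v, ∃ c : ℝ, 0 < c ∧ ρ (c • v) < ∞) {a : ℕ → (Fin n → ℝ)}
    (ha : Tendsto a atTop (𝓝 0)) : Tendsto (fun j => ρ (e.symm (a j))) atTop (𝓝 0) := by
  have h1 : Q ρ (fun j => ∑ i : Fin n, a j i • e.symm (Pi.single i 1)) := by
    refine Q.sum h Finset.univ fun i _ => ?_
    obtain ⟨c, hc, hc'⟩ := hall (e.symm (Pi.single i 1))
    refine Q.smul h hc hc' ?_
    have := (continuous_apply i).tendsto (0 : Fin n → ℝ)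
    exact this.comp ha
  have h2 := h1 1
  refine h2.congr fun j => ?_
  rw [one_smul]
  congr 1
  simp only [← map_smul, ← map_sum]
  congr 1
  funext i
  simp [Finset.sum_apply, Pi.single_apply]

/-- modular convergence implies coordinatewise convergence -/
lemma coord_of_conv (h : IsConvexModular ρ) {n : ℕ} (e : V ≃ₗ[ℝ] (Fin n → ℝ))
    (hall : ∀ v, ∃ c : ℝ, 0 < c ∧ ρ (c • v) < ∞) {x : ℕ → V}
    (hx : Tendsto (fun j => ρ (x j)) atTop (𝓝 0)) : Tendsto (fun j => e (x j)) atTop (𝓝 0) := by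
  by_contra hc
  rw [Metric.tendsto_atTop] at hc
  push Not at hc
  obtain ⟨δ, hδ, hc⟩ := hc
  have hfr : ∃ᶠ j in atTop, δ ≤ ‖e (x j)‖ := by
    rw [frequently_atTop]
    intro N
    obtain ⟨j, hj, hj'⟩ := hc N
    exact ⟨j, hj, by rwa [dist_zero_right] at hj'⟩
  obtain ⟨φ, hφ, hφ'⟩ := extraction_of_frequently_atTop hfr
  have hn : ∀ j, 0 < ‖e (x (φ j))‖ := fun j => lt_of_lt_of_le hδ (hφ' j)
  set y : ℕ → (Fin n → ℝ) := fun j => (δ / ‖e (x (φ j))‖) • e (x (φ j)) with hy
  have hys : ∀ j, y j ∈ Metric.sphere (0 : Fin n → ℝ) δ := by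
    intro j
    have := hn j
    rw [mem_sphere_zero_iff_norm, hy]
    simp only
    rw [norm_smul, norm_div, norm_norm, Real.norm_of_nonneg hδ.le, div_mul_cancel₀ _ this.ne']
  obtain ⟨z, hz, ψ, hψ, hzψ⟩ := (isCompact_sphere (0 : Fin n → ℝ) δ).tendsto_subseq hys
  have hρy : Tendsto (fun j => ρ (e.symm (y (ψ j)))) atTop (𝓝 0) := by
    have h1 : Tendsto (fun j => ρ (x (φ (ψ j)))) atTop (𝓝 0) :=
      hx.comp (hφ.comp hψ).tendsto_atTop
    refine tendsto_of_tendsto_of_tendsto_of_le_of_le tendsto_const_nhds h1 (fun _ => bot_le)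
      fun j => ?_
    show ρ (e.symm (y (ψ j))) ≤ ρ (x (φ (ψ j)))
    rw [hy]
    simp only
    rw [map_smul, LinearEquiv.symm_apply_apply]
    have h2 := hn (ψ j)
    have h3 : δ / ‖e (x (φ (ψ j)))‖ ≤ 1 := (div_le_one h2).2 (hφ' _)
    refine (h.smul_le (by positivity) h3 _).trans ?_
    refine mul_le_of_le_one_left bot_le ?_
    rwa [ENNReal.ofReal_le_one]
  have hρz : Tendsto (fun j => ρ (e.symm (z - y (ψ j)))) atTop (𝓝 0) := by
    refine conv_of_coord h e hall ?_
    have := hzψ.const_sub z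
    rwa [sub_self] at this
  have hsum := hρy.add hρz
  rw [add_zero] at hsum
  have hle : ρ ((1 / 2 : ℝ) • e.symm z) ≤ 0 := by
    refine ge_of_tendsto' hsum fun j => ?_
    have e1 : e.symm z = e.symm (y (ψ j)) + e.symm (z - y (ψ j)) := by
      rw [← map_add]; congr 1; abel
    rw [e1]
    exact h.half _ _
  have h0 := (h.eq_zero_iff _).1 (le_antisymm hle bot_le)
  have hz0 : z = 0 := by
    have h1 : e.symm z = 0 := by
      rcases smul_eq_zero.1 h0 with h1 | h1
      · norm_num at h1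
      · exact h1
    exact (LinearEquiv.map_eq_zero_iff e.symm).1 h1
  rw [hz0, mem_sphere_zero_iff_norm, norm_zero] at hz
  exact hδ.ne hz

end fin

variable {X : Type u} [AddCommGroup X] [Module ℝ X]

/-- In finite dimension the modular topology is the Euclidean topology of `X_ρ`. -/
lemma finite_case [FiniteDimensional ℝ X] {ρ : X → ℝ≥0∞} (h : IsConvexModular ρ) :
    ∃ (n : ℕ) (E : modularSpace ρ ≃ (Fin n → ℝ)),
      (∀ (a b : ℝ) (u v w : modularSpace ρ), (w : X) = a • (u : X) + b • (v : X) →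
        E w = a • E u + b • E v) ∧
      modTop ρ = TopologicalSpace.induced E inferInstance := by
  let b := Module.finBasis ℝ (sub h)
  let e : sub h ≃ₗ[ℝ] (Fin (Module.finrank ℝ (sub h)) → ℝ) := b.equivFun
  let E : modularSpace ρ ≃ (Fin (Module.finrank ℝ (sub h)) → ℝ) := e.toEquiv
  let T : modularSpace ρ → sub h := fun v => ⟨v.1, v.2⟩
  have hE : ∀ v : modularSpace ρ, E v = e (T v) := fun v => rfl
  -- the restricted modular
  have hV : IsConvexModular (fun v : sub h => ρ (v : X)) := by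
    refine ⟨fun u => ?_, fun α u hα => h.smul_eq α u hα, fun α u v h0 h1 => h.convex α u v h0 h1⟩
    rw [h.eq_zero_iff]
    exact ZeroMemClass.coe_eq_zero
  have hall : ∀ v : sub h, ∃ c : ℝ, 0 < c ∧ (fun v : sub h => ρ (v : X)) (c • v) < ∞ := fun v => v.2
  refine ⟨_, E, ?_, ?_⟩
  · intro a b u v w hw
    have h1 : T w = a • T u + b • T v := Subtype.ext hw
    rw [hE, hE, hE, h1, map_add, map_smul, map_smul]
  ext U
  rw [isOpen_induced_iff]
  constructor
  · intro hU
    refine ⟨E.symm ⁻¹' U, ?_, ?_⟩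
    · rw [← isClosed_compl_iff, ← isSeqClosed_iff_isClosed]
      intro a z ha haz
      refine hU (fun j => E.symm (a j)) (E.symm z) ha ?_
      have h1 : Tendsto (fun j => a j - z) atTop (𝓝 0) := by
        have := haz.sub_const z
        rwa [sub_self] at this
      have h2 := conv_of_coord hV e hall h1
      refine h2.congr fun j => ?_
      simp only [map_sub]
      rfl
    · ext v
      simp
  · rintro ⟨t, ht, rfl⟩
    intro x y hx hxy hy
    have h1 : Tendsto (fun j => e (T (x j) - T y)) atTop (𝓝 0) :=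
      coord_of_conv hV e hall (x := fun j => (T (x j) - T y)) hxy
    have h2 : Tendsto (fun j => E (x j)) atTop (𝓝 (E y)) := by
      have := h1.add_const (e (T y))
      rw [zero_add] at this
      refine this.congr fun j => ?_
      rw [map_sub, sub_add_cancel]
      rfl
    obtain ⟨j, hj⟩ := (h2.eventually (ht.mem_nhds hy)).exists
    exact hx j hj

/-! ### infinite dimension -/

section inf

variable {I : Type u} (e : X ≃ₗ[ℝ] (I →₀ ℝ)) (w : I → ℝ)

/-- the weighted sum -/
noncomputable def W (x : X) : ℝ := (e x).sum fun n a => w n * |a|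

/-- the sum of the coordinates -/
noncomputable def S (x : X) : ℝ := (Finsupp.lsum ℝ fun _ => LinearMap.id : (I →₀ ℝ) →ₗ[ℝ] ℝ) (e x)

lemma S_add (x y : X) : S e (x + y) = S e x + S e y := by
  unfold S; rw [map_add, map_add]

lemma S_smul (c : ℝ) (x : X) : S e (c • x) = c * S e x := by
  unfold S; rw [map_smul, map_smul, smul_eq_mul]

/-- the basis vector -/
noncomputable def bv (i : I) : X := e.symm (Finsupp.single i 1)

lemma e_bv (i : I) (a : ℝ) : e (a • bv e i) = Finsupp.single i a := by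
  rw [map_smul, bv, LinearEquiv.apply_symm_apply, Finsupp.smul_single, smul_eq_mul, mul_one]

lemma S_bv (i : I) (a : ℝ) : S e (a • bv e i) = a := by
  unfold S; rw [e_bv]; simp

lemma W_eq (x : X) (s : Finset I) (hs : (e x).support ⊆ s) :
    W e w x = ∑ n ∈ s, w n * |e x n| := by
  unfold W
  rw [Finsupp.sum_of_support_subset (e x) hs]
  intro n _
  simp

lemma W_bv (i : I) (a : ℝ) : W e w (a • bv e i) = w i * |a| := by
  unfold W
  rw [e_bv, Finsupp.sum_single_index]
  simp

variable (hw : ∀ i, 0 < w i)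

include hw

lemma W_nonneg (x : X) : 0 ≤ W e w x := by
  rw [W_eq e w x _ subset_rfl]
  exact Finset.sum_nonneg fun i _ => mul_nonneg (hw i).le (abs_nonneg _)

lemma W_add_le (x y : X) : W e w (x + y) ≤ W e w x + W e w y := by
  classical
  set s := (e x).support ∪ (e y).support
  rw [W_eq e w x s Finset.subset_union_left, W_eq e w y s Finset.subset_union_right,
    W_eq e w (x + y) s (by rw [map_add]; exact Finsupp.support_add), ← Finset.sum_add_distrib]
  refine Finset.sum_le_sum fun n _ => ?_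
  rw [← mul_add, map_add]
  exact mul_le_mul_of_nonneg_left (abs_add_le _ _) (hw n).le

omit hw in
lemma W_smul (c : ℝ) (x : X) : W e w (c • x) = |c| * W e w x := by
  rw [W_eq e w (c • x) (e x).support (by rw [map_smul]; exact Finsupp.support_smul),
    W_eq e w x _ subset_rfl, Finset.mul_sum]
  refine Finset.sum_congr rfl fun n _ => ?_
  rw [map_smul]
  simp only [Finsupp.smul_apply, smul_eq_mul, abs_mul]
  ring

lemma le_W (x : X) (n : I) : w n * |e x n| ≤ W e w x := by
  by_cases hn : n ∈ (e x).support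
  · rw [W_eq e w x _ subset_rfl]
    exact Finset.single_le_sum (f := fun n => w n * |e x n|)
      (fun i _ => mul_nonneg (hw i).le (abs_nonneg _)) hn
  · have : e x n = 0 := by simpa using hn
    rw [this, abs_zero, mul_zero]
    exact W_nonneg e w hw x

lemma W_eq_zero {x : X} (h : W e w x = 0) : x = 0 := by
  have h1 : e x = 0 := by
    ext n
    have h2 := le_W e w hw x n
    rw [h] at h2
    have h3 : w n * |e x n| = 0 := le_antisymm h2 (mul_nonneg (hw n).le (abs_nonneg _))
    rcases mul_eq_zero.1 h3 with h4 | h4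
    · exact absurd h4 (hw n).ne'
    · simpa using h4
  exact (LinearEquiv.map_eq_zero_iff e).1 h1

/-- the modular -/
noncomputable def rho (e : X ≃ₗ[ℝ] (I →₀ ℝ)) (w : I → ℝ) (x : X) : ℝ≥0∞ :=
  if |S e x| ≤ 1 then ENNReal.ofReal (W e w x) else ∞

omit hw in
lemma rho_lt_top {x : X} (h : rho e w x < ∞) : |S e x| ≤ 1 := by
  by_contra hc
  unfold rho at h
  rw [if_neg hc] at h
  exact lt_irrefl _ h

omit hw in
lemma rho_of_le {x : X} (h : |S e x| ≤ 1) : rho e w x = ENNReal.ofReal (W e w x) := if_pos h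

lemma isConvexModular_rho : IsConvexModular (rho e w) := by
  refine ⟨?_, ?_, ?_⟩
  · intro u
    constructor
    · intro h
      have h1 : |S e u| ≤ 1 := rho_lt_top e w (by rw [h]; simp)
      rw [rho_of_le e w h1, ENNReal.ofReal_eq_zero] at h
      exact W_eq_zero e w hw (le_antisymm h (W_nonneg e w hw u))
    · rintro rfl
      rw [rho_of_le e w (by simp [S])]
      simp [W]
  · intro α u hα
    unfold rho
    rw [S_smul, abs_mul, hα, one_mul, W_smul, hα, one_mul]
  · intro α u v h0 h1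
    rcases h0.eq_or_lt with rfl | h0
    · simp
    rcases h1.eq_or_lt with rfl | h1
    · simp
    by_cases hu : |S e u| ≤ 1
    · by_cases hv : |S e v| ≤ 1
      · have h2 : |S e (α • u + (1 - α) • v)| ≤ 1 := by
          rw [S_add, S_smul, S_smul]
          refine (abs_add_le _ _).trans ?_
          rw [abs_mul, abs_mul, abs_of_pos h0, abs_of_pos (by linarith : 0 < 1 - α)]
          nlinarith
        rw [rho_of_le e w h2, rho_of_le e w hu, rho_of_le e w hv, ← ENNReal.ofReal_mul h0.le,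
          ← ENNReal.ofReal_mul (by linarith), ← ENNReal.ofReal_add
            (mul_nonneg h0.le (W_nonneg e w hw _)) (mul_nonneg (by linarith) (W_nonneg e w hw _))]
        refine ENNReal.ofReal_le_ofReal ?_
        refine (W_add_le e w hw _ _).trans ?_
        rw [W_smul, W_smul, abs_of_pos h0, abs_of_pos (by linarith : 0 < 1 - α)]
      · have : rho e w v = ∞ := if_neg hv
        rw [this, ENNReal.mul_top (by simp; linarith)]
        simp
    · have : rho e w u = ∞ := if_neg hu
      rw [this, ENNReal.mul_top (by simp; linarith)]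
      simp

omit hw in
lemma leftContinuous_rho : IsLeftContinuous (rho e w) := by
  intro u c hc
  by_cases h : |S e (c • u)| ≤ 1
  · rw [rho_of_le e w h]
    have h1 : ∀ᶠ t : ℝ in 𝓝[<] c, rho e w (t • u) = ENNReal.ofReal (W e w (t • u)) := by
      have h2 : ∀ᶠ t : ℝ in 𝓝[<] c, t ∈ Set.Ioo 0 c := Ioo_mem_nhdsLT hc
      filter_upwards [h2] with t ht
      refine rho_of_le e w ?_
      rw [S_smul, abs_mul] at h ⊢
      rw [abs_of_pos hc] at h
      rw [abs_of_pos ht.1]
      exact (mul_le_mul_of_nonneg_right ht.2.le (abs_nonneg _)).trans h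
    refine Tendsto.congr' (h1.mono fun t ht => ht.symm) ?_
    refine (ENNReal.continuous_ofReal.tendsto _).comp ?_
    have h3 : Continuous fun t : ℝ => W e w (t • u) := by
      have : (fun t : ℝ => W e w (t • u)) = fun t => |t| * W e w u := by
        funext t; exact W_smul e w t u
      rw [this]
      exact continuous_abs.mul continuous_const
    exact (h3.tendsto c).mono_left nhdsWithin_le_nhds
  · have h0 : rho e w (c • u) = ∞ := if_neg h
    rw [h0]
    push Not at h
    have h1 : ∀ᶠ t : ℝ in 𝓝[<] c, rho e w (t • u) = ∞ := by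
      have h2 : Continuous fun t : ℝ => |S e (t • u)| := by
        have : (fun t : ℝ => |S e (t • u)|) = fun t => |t * S e u| := by
          funext t; rw [S_smul]
        rw [this]
        exact (continuous_id.mul continuous_const).abs
      have h3 : ∀ᶠ t : ℝ in 𝓝 c, 1 < |S e (t • u)| := (h2.tendsto c).eventually_const_lt h
      filter_upwards [h3.filter_mono nhdsWithin_le_nhds] with t ht
      exact if_neg (not_le.2 ht)
    exact Tendsto.congr' (h1.mono fun t ht => ht.symm) tendsto_const_nhds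

omit hw in
lemma mem_modularSpace (x : X) : x ∈ modularSpace (rho e w) := by
  refine ⟨(1 + |S e x|)⁻¹, by positivity, ?_⟩
  rw [rho_of_le]
  · exact ENNReal.ofReal_lt_top
  · rw [S_smul, abs_mul, abs_inv, abs_of_pos (by positivity : 0 < 1 + |S e x|),
      inv_mul_le_iff₀ (by positivity)]
    linarith [abs_nonneg (S e x)]

/-- modular convergence implies coordinatewise convergence -/
lemma tendsto_coord {x : ℕ → X} {y : X}
    (h : Tendsto (fun j => rho e w (x j - y)) atTop (𝓝 0)) :
    (∀ᶠ j in atTop, |S e (x j - y)| ≤ 1) ∧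
      ∀ n, Tendsto (fun j => e (x j - y) n) atTop (𝓝 0) := by
  have h1 : ∀ᶠ j in atTop, |S e (x j - y)| ≤ 1 := by
    have h2 : ∀ᶠ j in atTop, rho e w (x j - y) < 1 := h.eventually_lt_const (by simp)
    filter_upwards [h2] with j hj
    exact rho_lt_top e w (hj.trans (by simp))
  refine ⟨h1, fun n => ?_⟩
  have h3 : Tendsto (fun j => W e w (x j - y)) atTop (𝓝 0) := by
    have h4 : Tendsto (fun j => (rho e w (x j - y)).toReal) atTop (𝓝 0) := by
      have := (ENNReal.tendsto_toReal ENNReal.zero_ne_top).comp h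
      rw [ENNReal.toReal_zero] at this
      exact this
    refine Tendsto.congr' ?_ h4
    filter_upwards [h1] with j hj
    rw [rho_of_le e w hj, ENNReal.toReal_ofReal (W_nonneg e w hw _)]
  rw [tendsto_zero_iff_abs_tendsto_zero]
  have h5 : Tendsto (fun j => (w n)⁻¹ * W e w (x j - y)) atTop (𝓝 0) := by
    simpa using h3.const_mul ((w n)⁻¹)
  refine squeeze_zero (fun j => abs_nonneg _) (fun j => ?_) h5
  have := le_W e w hw (x j - y) n
  rw [← div_eq_inv_mul, le_div_iff₀ (hw n), mul_comm]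
  exact this

/-- the point `a e_i + b e_j` as a point of the modular space -/
noncomputable def pt (e : X ≃ₗ[ℝ] (I →₀ ℝ)) (w : I → ℝ) (x : X) : modularSpace (rho e w) :=
  ⟨x, mem_modularSpace e w x⟩

/-- the closed set -/
def FF (e : X ≃ₗ[ℝ] (I →₀ ℝ)) (w : I → ℝ) (ι : ℕ → I) : Set (modularSpace (rho e w)) :=
  {x | ∃ k : ℕ, (x : X) = (2 : ℝ) • bv e (ι k)}

lemma isClosed_FF (ι : ℕ → I) : IsClosed[modTop (rho e w)] (FF e w ι) := by
  rw [← @isOpen_compl_iff]
  intro x y hx h hy
  apply hy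
  have hx' : ∀ j, x j ∈ FF e w ι := fun j => not_not.1 (hx j)
  choose k hk using hx'
  obtain ⟨h1, h2⟩ := tendsto_coord e w hw h
  -- some coordinate of `y` is nonzero
  have hy0 : (y : X) ≠ 0 := by
    intro h0
    obtain ⟨j, hj⟩ := h1.exists
    rw [h0, sub_zero, hk j, S_bv] at hj
    norm_num at hj
  obtain ⟨n, hn⟩ : ∃ n, e y n ≠ 0 := by
    by_contra hc
    push Not at hc
    exact hy0 ((LinearEquiv.map_eq_zero_iff e).1 (Finsupp.ext hc))
  -- eventually `ι (k j) = n`
  have h3 : ∀ᶠ j in atTop, ι (k j) = n := by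
    have h4 : ∀ᶠ j in atTop, |e (x j - y) n| < |e y n| := by
      have := (h2 n).abs
      rw [abs_zero] at this
      exact this.eventually_lt_const (abs_pos.2 hn)
    filter_upwards [h4] with j hj
    by_contra hc
    classical
    rw [map_sub, hk j, Finsupp.sub_apply, e_bv, Finsupp.single_apply, if_neg hc, zero_sub,
      abs_neg] at hj
    exact lt_irrefl _ hj
  obtain ⟨j0, hj0⟩ := h3.exists
  refine ⟨k j0, ?_⟩
  apply e.injective
  rw [hj0, e_bv]
  ext m
  have h4 : Tendsto (fun j => e (x j - y) m) atTop (𝓝 (Finsupp.single n 2 m - e y m)) := by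
    refine tendsto_const_nhds.congr' ?_
    filter_upwards [h3] with j hj
    rw [map_sub, hk j, hj, Finsupp.sub_apply, e_bv]
  have h5 := tendsto_nhds_unique h4 (h2 m)
  linarith

omit hw in
lemma zero_notMem (ι : ℕ → I) : pt e w 0 ∉ FF e w ι := by
  rintro ⟨k, hk⟩
  have h1 := congrArg (S e) hk
  rw [S_bv] at h1
  simp [pt, S] at h1

lemma t2_rho : @T2Space _ (modTop (rho e w)) := by
  let _ := modTop (rho e w)
  refine T2Space.of_injective_continuous (f := fun x : modularSpace (rho e w) => fun n => e x n) ?_ ?_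
  · intro x y hxy
    exact Subtype.ext (e.injective (Finsupp.ext fun n => congrFun hxy n))
  · rw [continuous_pi_iff]
    intro n
    rw [continuous_def]
    intro t ht x y hx hxy hy
    have h1 := (tendsto_coord e w hw hxy).2 n
    have h2 : Tendsto (fun j => e (x j : X) n) atTop (𝓝 (e (y : X) n)) := by
      have := h1.add_const (e (y : X) n)
      rw [zero_add] at this
      refine this.congr fun j => ?_
      rw [map_sub, Finsupp.sub_apply, sub_add_cancel]
    obtain ⟨j, hj⟩ := (h2.eventually (ht.mem_nhds hy)).exists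
    exact hx j hj

lemma not_separated {ι : ℕ → I} (hι : ∀ n, w (ι n) = (1 / 2) ^ n)
    (U V : Set (modularSpace (rho e w))) (hU : IsOpen[modTop (rho e w)] U)
    (hV : IsOpen[modTop (rho e w)] V)
    (h0 : pt e w 0 ∈ U) (hF : FF e w ι ⊆ V) : (U ∩ V).Nonempty := by
  have hpow : Tendsto (fun n : ℕ => (1 / 2 : ℝ) ^ n) atTop (𝓝 0) :=
    tendsto_pow_atTop_nhds_zero_of_lt_one (by norm_num) (by norm_num)
  have hS2 : ∀ (i j : I) (a b : ℝ), S e (a • bv e i + b • bv e j) = a + b := by
    intro i j a b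
    rw [S_add, S_bv, S_bv]
  -- points close to 0
  obtain ⟨N, hN⟩ : ∃ N : ℕ, ∀ k j : ℕ, N ≤ k → N ≤ j →
      pt e w ((2 : ℝ) • bv e (ι k) + (-1 : ℝ) • bv e (ι j)) ∈ U := by
    by_contra hc
    push Not at hc
    choose k j hk hj hkj using hc
    refine hU (fun N => pt e w ((2 : ℝ) • bv e (ι (k N)) + (-1 : ℝ) • bv e (ι (j N)))) (pt e w 0)
      hkj ?_ h0
    have h1 : ∀ N, rho e w ((2 : ℝ) • bv e (ι (k N)) + (-1 : ℝ) • bv e (ι (j N)) - 0) ≤
        ENNReal.ofReal (3 * (1 / 2) ^ N) := by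
      intro N
      rw [sub_zero, rho_of_le e w (by rw [hS2]; norm_num)]
      refine ENNReal.ofReal_le_ofReal ?_
      refine (W_add_le e w hw _ _).trans ?_
      rw [W_bv, W_bv, hι, hι]
      have h2 : (1 / 2 : ℝ) ^ (k N) ≤ (1 / 2) ^ N :=
        pow_le_pow_of_le_one (by norm_num) (by norm_num) (hk N)
      have h3 : (1 / 2 : ℝ) ^ (j N) ≤ (1 / 2) ^ N :=
        pow_le_pow_of_le_one (by norm_num) (by norm_num) (hj N)
      rw [abs_neg, abs_one, abs_two]
      linarith
    have h2 : Tendsto (fun N : ℕ => ENNReal.ofReal (3 * (1 / 2) ^ N)) atTop (𝓝 0) := by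
      have := (ENNReal.continuous_ofReal.tendsto 0).comp (by simpa using hpow.const_mul 3 :
        Tendsto (fun N : ℕ => (3 : ℝ) * (1 / 2) ^ N) atTop (𝓝 0))
      rw [ENNReal.ofReal_zero] at this
      exact this
    exact tendsto_of_tendsto_of_tendsto_of_le_of_le tendsto_const_nhds h2
      (fun _ => bot_le) h1
  -- points close to 2 e_N
  obtain ⟨M, hM⟩ : ∃ M : ℕ, ∀ j : ℕ, M ≤ j →
      pt e w ((2 : ℝ) • bv e (ι N) + (-1 : ℝ) • bv e (ι j)) ∈ V := by
    by_contra hc
    push Not at hc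
    choose j hj hjV using hc
    refine hV (fun M => pt e w ((2 : ℝ) • bv e (ι N) + (-1 : ℝ) • bv e (ι (j M))))
      (pt e w ((2 : ℝ) • bv e (ι N))) hjV ?_ (hF ⟨N, rfl⟩)
    have h1 : ∀ M, rho e w ((2 : ℝ) • bv e (ι N) + (-1 : ℝ) • bv e (ι (j M)) -
        (2 : ℝ) • bv e (ι N)) ≤ ENNReal.ofReal ((1 / 2) ^ M) := by
      intro M
      rw [add_sub_cancel_left, rho_of_le e w (by rw [S_bv]; norm_num)]
      refine ENNReal.ofReal_le_ofReal ?_
      rw [W_bv, hι, abs_neg, abs_one, mul_one]
      exact pow_le_pow_of_le_one (by norm_num) (by norm_num) (hj M)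
    have h2 : Tendsto (fun N : ℕ => ENNReal.ofReal ((1 / 2) ^ N)) atTop (𝓝 0) := by
      have := (ENNReal.continuous_ofReal.tendsto 0).comp hpow
      rw [ENNReal.ofReal_zero] at this
      exact this
    exact tendsto_of_tendsto_of_tendsto_of_le_of_le tendsto_const_nhds h2
      (fun _ => bot_le) h1
  exact ⟨_, hN N (max N M) le_rfl (le_max_left _ _), hM (max N M) (le_max_right _ _)⟩

end inf

lemma infinite_case (hX : ¬ FiniteDimensional ℝ X) :
    ∃ ρ : X → ℝ≥0∞, IsConvexModular ρ ∧ IsLeftContinuous ρ ∧ modularSpace ρ = univ ∧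
      @T2Space _ (modTop ρ) ∧ ¬ @RegularSpace _ (modTop ρ) := by
  classical
  let b := Module.Basis.ofVectorSpace ℝ X
  have hinf : Infinite (Module.Basis.ofVectorSpaceIndex ℝ X) := by
    by_contra hfin
    rw [not_infinite_iff_finite] at hfin
    exact hX (Module.Finite.of_basis b)
  let ι : ℕ ↪ Module.Basis.ofVectorSpaceIndex ℝ X := Infinite.natEmbedding _
  let w : Module.Basis.ofVectorSpaceIndex ℝ X → ℝ :=
    Function.extend ι (fun n => (1 / 2 : ℝ) ^ n) (fun _ => 1)
  have hι : ∀ n, w (ι n) = (1 / 2) ^ n := fun n => ι.injective.extend_apply _ _ n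
  have hw : ∀ i, 0 < w i := by
    intro i
    by_cases h : ∃ n, ι n = i
    · obtain ⟨n, rfl⟩ := h
      rw [hι]; positivity
    · have : w i = 1 := Function.extend_apply' _ _ _ h
      rw [this]; exact one_pos
  refine ⟨rho b.repr w, isConvexModular_rho _ w hw, leftContinuous_rho _ w, ?_, t2_rho _ w hw, ?_⟩
  · exact eq_univ_of_forall fun x => mem_modularSpace _ w x
  · intro hreg
    let _ := modTop (rho b.repr w)
    obtain ⟨A, hA, B, hB, hAB⟩ := Filter.disjoint_iff.1
      (hreg.regular (isClosed_FF b.repr w hw ι) (zero_notMem b.repr w ι))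
    obtain ⟨V, hV, hFV, hVA⟩ := mem_nhdsSet_iff_exists.1 hA
    obtain ⟨U, hUB, hU, h0U⟩ := mem_nhds_iff.1 hB
    obtain ⟨x, hxU, hxV⟩ := not_separated b.repr w hw hι U V hU hV h0U hFV
    exact Set.disjoint_left.1 hAB (hVA hxV) (hUB hxU)

/-- **Result.** Let `X` be a real vector space. -/
theorem result (X : Type u) [AddCommGroup X] [Module ℝ X] :
    (FiniteDimensional ℝ X ↔ ∀ ρ : X → ℝ≥0∞, IsConvexModular ρ → IsLeftContinuous ρ →
      @RegularSpace _ (modTop ρ)) ∧
    (FiniteDimensional ℝ X → ∀ ρ : X → ℝ≥0∞, IsConvexModular ρ →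
      @T3Space _ (modTop ρ) ∧
      ∃ (n : ℕ) (E : modularSpace ρ ≃ (Fin n → ℝ)),
        (∀ (a b : ℝ) (u v w : modularSpace ρ), (w : X) = a • (u : X) + b • (v : X) →
          E w = a • E u + b • E v) ∧
        modTop ρ = TopologicalSpace.induced E inferInstance) ∧
    (¬ FiniteDimensional ℝ X → ∃ ρ : X → ℝ≥0∞, IsConvexModular ρ ∧ IsLeftContinuous ρ ∧
      modularSpace ρ = univ ∧ @T2Space _ (modTop ρ) ∧ ¬ @RegularSpace _ (modTop ρ)) := by
  have hfin : FiniteDimensional ℝ X → ∀ ρ : X → ℝ≥0∞, IsConvexModular ρ →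
      @T3Space _ (modTop ρ) ∧
      ∃ (n : ℕ) (E : modularSpace ρ ≃ (Fin n → ℝ)),
        (∀ (a b : ℝ) (u v w : modularSpace ρ), (w : X) = a • (u : X) + b • (v : X) →
          E w = a • E u + b • E v) ∧
        modTop ρ = TopologicalSpace.induced E inferInstance := by
    intro _ ρ hρ
    obtain ⟨n, E, hE, hind⟩ := finite_case hρ
    refine ⟨?_, n, E, hE, hind⟩
    let _ := modTop ρ
    have : IsEmbedding E := ⟨⟨hind⟩, E.injective⟩
    exact this.t3Space
  refine ⟨⟨fun h ρ hρ _ => ?_, fun h => ?_⟩, hfin, infinite_case⟩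
  · let _ := modTop ρ
    have := (hfin h ρ hρ).1
    infer_instance
  · by_contra hX
    obtain ⟨ρ, h1, h2, -, -, h3⟩ := infinite_case hX
    exact h3 (h ρ h1 h2)

end Pool.Agent.Results.MP_106cb8_an.DimensionCriterion
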